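import Mathlib

/-! # Definitions for the upper bound for the sup-norm discrepancy in every dimension

A random digital net in base `p ^ r` built from an exact net in the prime base `p`, one
independent digital shift at every node of a tree of depth `r`.
-/

namespace DiscK

open Finset

/-- An exact net with `p ^ n` points in dimension `k`: `Y x i s` is the digit number `s` of the
coordinate `i` of the point `x`. -/
structure Net (p n k : ℕ) (K : Type) [Fintype K] where
  Y : K → Fin k → ℕ → ZMod p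
  card : Fintype.card K = p ^ n
  inj : ∀ t : Fin k → ℕ, ∑ i, t i = n →
    ∀ x y : K, (∀ i, ∀ s < t i, Y x i s = Y y i s) → x = y

/-- A digital shift, extended by zero. -/
def sh {p n k : ℕ} (σ : Fin k → Fin n → ZMod p) (i : Fin k) (s : ℕ) : ZMod p :=
  if h : s < n then σ i ⟨s, h⟩ else 0

/-- The value of a corner: digits `l` in base `q`, then the flag `e`. -/
noncomputable def cval (q : ℕ) : List ℕ → Bool → ℝ
  | [], e => if e then 1 else 0
  | a :: l, e => (a + cval q l e) / q

/-- `d` is (lexicographically) below the corner `(l, e)`. -/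
def less : (ℕ → ℕ) → List ℕ → Bool → Prop
  | _, [], e => e = true
  | d, a :: l, e => d 0 < a ∨ (d 0 = a ∧ less (fun t => d (t + 1)) l e)

/-- The corner seen by the more significant digits, once the last base `p` digits `u` of all the
digits are known. -/
def child (p : ℕ) : List ℕ → Bool → (ℕ → ℕ) → List ℕ × Bool
  | [], e, _ => ([], e)
  | a :: l, e, u =>
    if u 0 = a % p then
      (a / p :: (child p l e (fun t => u (t + 1))).1, (child p l e (fun t => u (t + 1))).2)
    else ([a / p], decide (u 0 < a % p))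

/-- A profile: length, digits to be matched, fluctuations, mean value. -/
structure Prof (p : ℕ) where
  l : ℕ
  a : ℕ → ZMod p
  g : ℕ → ZMod p → ℝ
  m : ℝ

open Classical in
/-- The fluctuation created by the digit number `t`. -/
noncomputable def Prof.del {p : ℕ} (P : Prof p) (h : ℝ) (t : ℕ) (u : ℕ → ZMod p) : ℝ :=
  if ∀ s < t, u s = P.a s then h ^ (t + 1) * P.g t (u t) else 0

/-- The terms of the expansion: the mean value, then the fluctuations. -/
noncomputable def Prof.tm {p : ℕ} (P : Prof p) (h : ℝ) : ℕ → (ℕ → ZMod p) → ℝ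
  | 0, _ => P.m
  | t + 1, u => P.del h t u

/-- The function with this profile. -/
noncomputable def Prof.val {p : ℕ} (P : Prof p) (h : ℝ) (u : ℕ → ZMod p) : ℝ :=
  ∑ j ∈ range (P.l + 1), P.tm h j u

open Classical in
/-- The properties of a profile which are used. -/
structure Prof.Good {p : ℕ} [NeZero p] (P : Prof p) (h : ℝ) : Prop where
  m0 : 0 ≤ P.m
  m1 : P.m ≤ 1
  sum0 : ∀ t < P.l, ∑ v, P.g t v = 0
  abs1 : ∀ t < P.l, ∀ v, |P.g t v| ≤ 1
  tail : ∀ s, ∀ u : ℕ → ZMod p,
    |∑ t ∈ Ico s P.l, P.del h t u| ≤ if ∀ r < s, u r = P.a r then h ^ s else 0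
  v0 : ∀ u, 0 ≤ P.val h u
  v1 : ∀ u, P.val h u ≤ 1

/-- The critical indices. -/
def crit {k : ℕ} (n : ℕ) (l : Fin k → ℕ) : Finset (Fin k → ℕ) :=
  (Fintype.piFinset fun i => range (l i + 1)).filter
    (fun j => ∑ i, (j i - 1) < n ∧ n < ∑ i, j i)

/-- The indices of full agreement. -/
def t0 {m : ℕ} (n : ℕ) (l : Fin (m + 1) → ℕ) : Finset (Fin m → ℕ) :=
  (Fintype.piFinset fun i : Fin m => range (l i.succ)).filter (fun t => n - ∑ i, t i < l 0)

/-- The indices counting the active corners. -/
def vv {m : ℕ} (n : ℕ) (l : Fin (m + 1) → ℕ) : Finset (Fin (m + 1) → ℕ) :=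
  (Fintype.piFinset fun i => range (l i)).filter (fun t => ∑ i, t i + m = n)

/-- The constant of the bound for one node. -/
def C1 (p m : ℕ) : ℝ := p ^ m * (2 * (m + 1)) ^ (m + 1) + 2 ^ m

open Classical in
/-- The discrepancy of the points with digits `d` at the corner `(l, e)`, base `q`. -/
noncomputable def disc {W : Type} [Fintype W] {k : ℕ} (q n : ℕ) (d : W → Fin k → ℕ → ℕ)
    (l : Fin k → List ℕ) (e : Fin k → Bool) : ℝ :=
  ((univ.filter fun w => ∀ i, less (d w i) (l i) (e i)).card : ℝ) -
    (q : ℝ) ^ n * ∏ i, cval q (l i) (e i)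

/-- The existence of a random net in base `p ^ s` with good exponential moments. -/
def Claim (p n m s : ℕ) (A B : ℝ) : Prop :=
  ∃ (Ω W : Type) (_ : Fintype Ω) (_ : Nonempty Ω) (_ : Fintype W)
    (d : Ω → W → Fin (m + 1) → ℕ → ℕ),
    Fintype.card W = (p ^ s) ^ n ∧ (∀ ω w i t, d ω w i t < p ^ s) ∧
    (∀ ω w w', (∀ t < n, d ω w 0 t = d ω w' 0 t) → w = w') ∧
    ∀ (l : Fin (m + 1) → List ℕ) (e : Fin (m + 1) → Bool),
      (∀ i, (l i).length ≤ n) → (∀ i, l i ≠ []) → (∀ i, ∀ a ∈ l i, a < p ^ s) → ∀ lam : ℝ,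
        (Fintype.card Ω : ℝ)⁻¹ * ∑ ω, Real.exp (lam * disc (p ^ s) n (d ω) l e) ≤
          Real.exp (|lam| * A * (t0 n (fun i => (l i).length)).card +
            lam ^ 2 * B * (vv n (fun i => (l i).length)).card)

end DiscK
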