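import Pool.Agent.Work.DiscK.Defs

/-! # Hoeffding's lemma for a finite average, and the claim for the empty tree -/

namespace DiscK

open Finset

/-- Hoeffding's lemma for a finite average -/
theorem hoeffding_finite {ι : Type*} [Fintype ι] [Nonempty ι] (X : ι → ℝ) {B : ℝ}
    (h0 : ∑ i, X i = 0) (hB : ∀ i, |X i| ≤ B) (lam : ℝ) :
    (Fintype.card ι : ℝ)⁻¹ * ∑ i, Real.exp (lam * X i) ≤ Real.exp (lam ^ 2 * B ^ 2 / 2) := by
  have hcard : (0 : ℝ) < Fintype.card ι := by exact_mod_cast Fintype.card_pos
  have hB0 : 0 ≤ B := (abs_nonneg _).trans (hB (Classical.arbitrary ι))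
  rcases hB0.eq_or_lt with hB0 | hB0
  · have hX : ∀ i, X i = 0 := fun i => by
      have := hB i
      rw [← hB0] at this
      exact abs_nonpos_iff.mp this
    simp only [hX, mul_zero, Real.exp_zero, sum_const, card_univ, nsmul_eq_mul, mul_one]
    rw [inv_mul_cancel₀ hcard.ne', ← hB0]
    simp
  · have key : ∀ i, Real.exp (lam * X i) ≤
        Real.cosh (lam * B) + (X i / B) * Real.sinh (lam * B) := by
      intro i
      have h1 := abs_le.mp (hB i)
      have hc := convexOn_exp.2 (Set.mem_univ (lam * B)) (Set.mem_univ (-(lam * B)))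
        (show 0 ≤ (B + X i) / (2 * B) from div_nonneg (by linarith) (by linarith))
        (show 0 ≤ (B - X i) / (2 * B) from div_nonneg (by linarith) (by linarith))
        (by field_simp; ring)
      simp only [smul_eq_mul] at hc
      have e1 : (B + X i) / (2 * B) * (lam * B) + (B - X i) / (2 * B) * (-(lam * B)) =
          lam * X i := by
        field_simp
        ring
      rw [e1] at hc
      refine hc.trans (le_of_eq ?_)
      rw [Real.cosh_eq, Real.sinh_eq]
      field_simp
      ring
    have hsum : ∑ i, Real.exp (lam * X i) ≤ Fintype.card ι * Real.cosh (lam * B) := by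
      refine (sum_le_sum fun i _ => key i).trans (le_of_eq ?_)
      rw [sum_add_distrib, sum_const, card_univ, nsmul_eq_mul, ← sum_mul, ← sum_div, h0]
      simp
    calc (Fintype.card ι : ℝ)⁻¹ * ∑ i, Real.exp (lam * X i)
        ≤ (Fintype.card ι : ℝ)⁻¹ * (Fintype.card ι * Real.cosh (lam * B)) :=
          mul_le_mul_of_nonneg_left hsum (inv_nonneg.mpr hcard.le)
      _ = Real.cosh (lam * B) := by rw [← mul_assoc, inv_mul_cancel₀ hcard.ne', one_mul]
      _ ≤ Real.exp ((lam * B) ^ 2 / 2) := Real.cosh_le_exp_half_sq _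
      _ = Real.exp (lam ^ 2 * B ^ 2 / 2) := by rw [mul_pow]

theorem hoef_cval_one (l : List ℕ) (e : Bool) (hl : ∀ a ∈ l, a < 1) :
    cval 1 l e = if e then 1 else 0 := by
  induction l with
  | nil => simp [cval]
  | cons a l ih =>
    have ha : a = 0 := by have := hl a (by simp); omega
    have := ih fun b hb => hl b (by simp [hb])
    simp only [cval, ha, this]
    simp

theorem hoef_less_zero (l : List ℕ) (e : Bool) (hl : ∀ a ∈ l, a < 1) :
    less (fun _ => 0) l e ↔ e = true := by
  induction l with
  | nil => simp [less]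
  | cons a l ih =>
    have ha : a = 0 := by have := hl a (by simp); omega
    have := ih fun b hb => hl b (by simp [hb])
    simp only [less, ha, this]
    simp

theorem claim_zero (p n m : ℕ) : Claim p n m 0 0 0 := by
  refine ⟨Unit, Unit, inferInstance, inferInstance, inferInstance, fun _ _ _ _ => 0,
    by simp, fun _ _ _ _ => by simp, fun _ _ _ _ => rfl, ?_⟩
  intro l e _ _ hl lam
  have hd : disc (p ^ 0) n (fun (_ : Unit) (_ : Fin (m + 1)) (_ : ℕ) => 0) l e = 0 := by
    classical
    unfold disc
    simp only [pow_zero] at hl ⊢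
    have h1 : ∀ i, less (fun _ => 0) (l i) (e i) ↔ e i = true := fun i =>
      hoef_less_zero _ _ (hl i)
    have h2 : ∀ i, cval 1 (l i) (e i) = if e i then 1 else 0 := fun i =>
      hoef_cval_one _ _ (hl i)
    simp only [h1, h2]
    by_cases h : ∀ i, e i = true
    · simp [h]
    · rw [filter_false_of_mem (by simpa using h)]
      push Not at h
      obtain ⟨i, hi⟩ := h
      rw [prod_eq_zero (mem_univ i) (by simp [hi])]
      simp
  simp only [hd]
  simp

end DiscK
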